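import Pool.Agent.R545.Sfw.Lower

/-!
# Rank-width is not at most half of the width of split-free cable terms

The graph `ring` (a ladder with five rungs, and one further vertex joined to the two ends of one
rail; 11 vertices) has a legal closed split-free cable term of width `4`, but its rank-width is at
least `3`.

The definitions (in `Pool.Agent.R545.Sfw.Basic`):
* `RankWidthLE G k`: `G` has at most one vertex, or there are a finite tree of maximum degree at
  most `3` and a bijection from the vertices of `G` to its leaves such that for every edge `st` of
  the tree the cut-rank (over `GF(2)`) of the set of the vertices on the side of `s` is at most `k`;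
* `Term V p q`: the split-free cable terms of type `p → q`, with their effect on lists of cables
  (`run`), the edges they add (`adds`) and the vertices they create (`created`);
* `SfwLE G k`: `G` has no vertex, or there is a legal closed term for `G` all of whose subterm
  occurrences have a cable rank `p + q` of at most `k`.
-/

namespace Pool.Agent.Results.MP_d70946_co.CableTermsBeatRankWidth

open Pool.Agent.R545.Sfw

/-- **The inequality `rw(G) ≤ ⌊sfw(G)/2⌋` fails**: it fails for the graph `ring`, with
`sfw ≤ 4` and `rw > 2`. -/
theorem result :
    (¬ ∀ (V : Type) [Fintype V] [DecidableEq V] (G : SimpleGraph V) (k : ℕ),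
      SfwLE G k → RankWidthLE G (k / 2)) ∧
    SfwLE ring 4 ∧ ¬ RankWidthLE ring 2 := by
  refine ⟨?_, ring_sfw, not_rankWidthLE⟩
  intro h
  exact not_rankWidthLE (h (Fin 11) ring 4 ring_sfw)

end Pool.Agent.Results.MP_d70946_co.CableTermsBeatRankWidth
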